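import Pool.Agent.H64.CB.Targets

/-!
# LFT: left inverses of the Lefschetz operator
-/

set_option autoImplicit false

open Matrix Pool.Agent.H64.CB

namespace Pool.Agent.H63.CB

theorem pf_LFT (hSPL : T_SPL) (hTRC : T_TRC) (hSEC : T_SEC) : T_LFT := by
  intro K _ _ W hS hSq Z L hL i hi
  have hdim := W.dim_prod Z Z
  have hsq : W.sq Z L ∈ W.Lef (W.prod Z Z) := W.Lef_prod Z Z L hL L hL
  obtain ⟨m, T, hT⟩ := hS (W.prod Z Z) (by omega) (W.sq Z L) hsq
  obtain ⟨c, hc, hcv⟩ := hSEC K W (W.prod Z Z) (W.sq Z L) m T hT ⟨W.dim Z, hdim⟩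
    (hSq Z L hL m T hT)
  have hLm := W.Lef_mem Z L hL
  refine hSPL K (W.rk Z) (W.cyc Z Z) (W.pj Z i) L (W.mul_mem Z Z Z) (W.kunneth Z i) ?_ hLm ?_ ?_
  · rw [Theory.pj, diagonal_mul_diagonal]
    congr 1
    funext a
    split_ifs <;> simp
  · intro x hx hux _
    obtain ⟨q, hq⟩ := W.trace_formula Z x hx
    have h1 : ∀ a, (-1 : K) ^ W.deg Z a * x a a = (-1) ^ i * x a a := by
      intro a
      by_cases ha : W.deg Z a = i
      · rw [ha]
      · have h2 : x a a = 0 := by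
          rw [← hux, Theory.pj, diagonal_mul, if_neg ha, zero_mul]
        rw [h2, mul_zero, mul_zero]
    rw [Finset.sum_congr rfl fun a _ => h1 a, ← Finset.mul_sum] at hq
    have h3 : x.trace = (-1) ^ i * (q : K) := by
      rw [← hq, ← mul_assoc, ← mul_pow]
      simp [Matrix.trace]
    refine ⟨(-1) ^ i * q, ?_⟩
    rw [h3]
    push_cast
    rfl
  · intro e he hee he0 hue heu
    exact hTRC K W Z L hLm i c hc (fun v hv => hcv (2 * i) (even_two_mul i) (by omega) v hv) e he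
      hee he0 hue heu

end Pool.Agent.H63.CB
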